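import Pool.Agent.H93.TN.TargetsC

/-!
tn_modules HL (MP_ee74d2_an): high frequencies in the first block, low frequencies in the second.
-/

set_option autoImplicit false

namespace Pool.Agent.H42.TN

open MeasureTheory Set FourierTransform
open Pool.Agent.H93.TN
open Pool.Agent.H83.LS Pool.Agent.H93.AR Pool.Agent.H54.LS Pool.Agent.H14.LS Pool.Agent.H83.AR
open Pool.Agent.H84.BR Pool.Agent.H84.B2
open scoped ENNReal NNReal

namespace HLaux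

lemma exU (n : ℕ) (hn : 1 ≤ n) : ∃ u : EE n, ‖u‖ = 1 :=
  ⟨EuclideanSpace.single ⟨0, hn⟩ (1 : ℝ), by simp⟩

lemma oneRpow {lam ε : ℝ} (h1 : 1 ≤ lam) (he : 0 < ε) : 1 ≤ lam ^ ε :=
  Real.one_le_rpow h1 he.le

/-- the factor from the wider slab -/
lemma slab {lam ε γ S : ℝ} (h1 : 1 ≤ lam) (he : 0 < ε) (hγ1 : γ ≤ 1) (hS : 0 ≤ S) :
    lam ^ ε * (2 * lam ^ ε * S) ^ γ ≤ 2 * (lam ^ (2 * ε) * S ^ γ) := by
  have hl : 0 < lam := lt_of_lt_of_le one_pos h1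
  have h2 : 1 ≤ 2 * lam ^ ε := by linarith [oneRpow h1 he]
  have h3 : (2 * lam ^ ε * S) ^ γ = (2 * lam ^ ε) ^ γ * S ^ γ :=
    Real.mul_rpow (by linarith) hS
  have h4 : (2 * lam ^ ε) ^ γ ≤ (2 * lam ^ ε) ^ (1 : ℝ) :=
    Real.rpow_le_rpow_of_exponent_le h2 hγ1
  rw [Real.rpow_one] at h4
  have h5 : 0 ≤ S ^ γ := Real.rpow_nonneg hS γ
  have h6 : lam ^ (2 * ε) = lam ^ ε * lam ^ ε := by
    rw [← Real.rpow_add hl]; ring_nf
  have h7 : 0 ≤ lam ^ ε := by positivity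
  rw [h3, h6]
  calc lam ^ ε * ((2 * lam ^ ε) ^ γ * S ^ γ) ≤ lam ^ ε * ((2 * lam ^ ε) * S ^ γ) := by
        gcongr
    _ = 2 * (lam ^ ε * lam ^ ε * S ^ γ) := by ring

end HLaux

open HLaux

theorem pf_hl (hOB : T_OB) (hBND : T_BND) (hMFX : T_MFX) : T_HL := by
  intro a b q ε N ha hb hq hq3 hε hε1
  obtain ⟨M, hM0, hM⟩ := hMFX a b ha hb
  obtain ⟨Cb, hCb⟩ := hBND a b q ε ha hb hq hq3 hε
  obtain ⟨Co, hCo⟩ := hOB a b q ε M N ha hb hq hε hM0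
  refine ⟨Co * (2 * Cb + 1), ?_⟩
  intro lam Lam L ρ φ σ A h h1 hL1 hL4 hL hσ hRG hh
  obtain ⟨u0, hu0⟩ := exU a ha
  obtain ⟨w, hw⟩ := exU b hb
  have hl : 0 < lam := lt_of_lt_of_le one_pos h1
  have hsq : 0 < Real.sqrt lam := Real.sqrt_pos.mpr hl
  have hLam : 0 < Lam := lt_of_lt_of_le hsq hL1
  have hσ0 : 0 < σ := lt_of_lt_of_le (by positivity) hσ
  set c1 : ℝ → ℝ := fun s => chi (s / Lam) with hc1
  set c2 : ℝ → ℝ := fun s => eta0 (s / Real.sqrt lam) with hc2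
  set γ : ℝ := 2 - q / 2 with hγ
  have hγ0 : 0 ≤ γ := by rw [hγ]; linarith
  have hγ1 : γ ≤ 1 := by rw [hγ]; linarith
  set S : ℝ := σ * lam / Lam with hS
  have hS0 : 0 ≤ S := by rw [hS]; positivity
  have hBS : BS b lam (Real.sqrt lam) c2 (fun _ => 1) w :=
    ⟨hw, Or.inr ⟨rfl, fun s => rfl, fun ξ => rfl⟩⟩
  have hMF := (hM lam Lam (Real.sqrt lam) c1 c2 (sy a ch2 Lam (dl lam Lam) u0) (fun _ => 1) u0 w
    h1 ⟨hu0, Or.inl ⟨hL1, hL4, fun s => rfl, rfl⟩⟩ hBS).2.2.1 (fun s => rfl)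
  have hT0 : 0 ≤ min 1 S := le_min zero_le_one hS0
  have hlam2 : 0 ≤ lam ^ (2 * ε) := by positivity
  -- the estimate for one band
  have hband : ∀ (u : EE a) (A' : ℝ) (g : EE (a + b) → ℂ), ‖u‖ = 1 → BI A' g →
      ∫⁻ t in Icc (1 : ℝ) 2, ∫⁻ x in {x : EE (a + b) | |inner ℝ (p1 a b x) u| ≤ 2 * lam ^ ε * σ ∧
        p2 a b x ∈ (univ : Set (EE b))},
        ‖MM (fun ξ => (fun (t : ℝ) (ξ : EE (a + b)) => mB a b c1 c2 (fun _ => 1) (fun _ => 1)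
            lam t ξ) t ξ *
          sy a ch2 Lam (dl lam Lam) u (p1 a b ξ)) ((fun f : EE (a + b) → ℂ => f) g) x‖ₑ ^ q ≤
        ((Cb : ℝ≥0∞) * ENNReal.ofReal (2 * (lam ^ (2 * ε) * min 1 S ^ γ))) *
          ENNReal.ofReal (A' ^ (q - 2)) * ∫⁻ x, ‖g x‖ₑ ^ 2 := by
    intro u A' g hu hg
    have hA' : 0 ≤ A' := le_trans (norm_nonneg _) (hg.2.2 0)
    have hAq : 0 ≤ A' ^ (q - 2) := Real.rpow_nonneg hA' _
    have hsym : ∀ t : ℝ, (fun ξ : EE (a + b) => (fun (t : ℝ) (ξ : EE (a + b)) =>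
          mB a b c1 c2 (fun _ => 1) (fun _ => 1) lam t ξ) t ξ *
          sy a ch2 Lam (dl lam Lam) u (p1 a b ξ)) =
        mB a b c1 c2 (sy a ch2 Lam (dl lam Lam) u) (fun _ => 1) lam t := by
      intro t; funext ξ; simp only [mB]; ring
    have hset : {x : EE (a + b) | |inner ℝ (p1 a b x) u| ≤ 2 * lam ^ ε * σ ∧
        p2 a b x ∈ (univ : Set (EE b))} =
        {x : EE (a + b) | |inner ℝ (p1 a b x) u| ≤ 2 * lam ^ ε * σ} := by
      ext x; simp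
    simp only [hset]
    have hint : ∀ t : ℝ, ∀ x, ‖MM (fun ξ : EE (a + b) =>
        mB a b c1 c2 (fun _ => 1) (fun _ => 1) lam t ξ *
          sy a ch2 Lam (dl lam Lam) u (p1 a b ξ)) g x‖ₑ ^ q =
        ‖MM (mB a b c1 c2 (sy a ch2 Lam (dl lam Lam) u) (fun _ => 1) lam t) g x‖ₑ ^ q := by
      intro t x
      have := hsym t
      simp only at this
      rw [this]
    simp only [hint]
    obtain ⟨hB1, hB2⟩ := hCb lam Lam (Real.sqrt lam) A' c1 c2 (sy a ch2 Lam (dl lam Lam) u)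
      (fun _ => 1) u w g h1 hu hL1 hL4 (fun s => rfl) rfl hBS hg
    have hcomb : (Cb : ℝ≥0∞) * ENNReal.ofReal (2 * (lam ^ (2 * ε) * min 1 S ^ γ)) *
        ENNReal.ofReal (A' ^ (q - 2)) =
        (Cb : ℝ≥0∞) * ENNReal.ofReal (2 * (lam ^ (2 * ε) * min 1 S ^ γ) * A' ^ (q - 2)) := by
      rw [mul_assoc, ← ENNReal.ofReal_mul (by positivity)]
    rw [hcomb]
    rcases le_total S 1 with hS1 | hS1
    · -- the slab estimate
      have h3 : 1 / Lam ≤ 2 * lam ^ ε * σ := by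
        have := oneRpow h1 hε
        nlinarith
      refine le_trans (hB2 (2 * lam ^ ε * σ) h3) ?_
      refine mul_le_mul' (mul_le_mul' le_rfl (ENNReal.ofReal_le_ofReal
        (mul_le_mul_of_nonneg_right ?_ hAq))) le_rfl
      rw [min_eq_right hS1]
      have h4 : 2 * lam ^ ε * σ * lam / Lam = 2 * lam ^ ε * S := by rw [hS]; ring
      rw [h4]
      exact slab h1 hε hγ1 hS0
    · -- the global estimate
      have h5 : ∫⁻ t in Icc (1 : ℝ) 2, ∫⁻ x in {x : EE (a + b) |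
          |inner ℝ (p1 a b x) u| ≤ 2 * lam ^ ε * σ},
          ‖MM (mB a b c1 c2 (sy a ch2 Lam (dl lam Lam) u) (fun _ => 1) lam t) g x‖ₑ ^ q ≤
          ∫⁻ t in Icc (1 : ℝ) 2, ∫⁻ x,
          ‖MM (mB a b c1 c2 (sy a ch2 Lam (dl lam Lam) u) (fun _ => 1) lam t) g x‖ₑ ^ q := by
        refine lintegral_mono fun t => ?_
        exact setLIntegral_le_lintegral _ _
      refine le_trans h5 (le_trans hB1 ?_)
      refine mul_le_mul' (mul_le_mul' le_rfl (ENNReal.ofReal_le_ofReal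
        (mul_le_mul_of_nonneg_right ?_ hAq))) le_rfl
      rw [min_eq_left hS1, Real.one_rpow, mul_one]
      have h6 : lam ^ (2 * ε) = lam ^ ε * lam ^ ε := by
        rw [← Real.rpow_add hl]; ring_nf
      have h7 := oneRpow h1 hε
      rw [h6]
      nlinarith
  have hres := hCo lam Lam L ρ φ σ A
    ((Cb : ℝ≥0∞) * ENNReal.ofReal (2 * (lam ^ (2 * ε) * min 1 S ^ γ))) univ
    (fun t ξ => mB a b c1 c2 (fun _ => 1) (fun _ => 1) lam t ξ) (fun f => f) h h1 hL1 hL4 hL hσ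
    hRG MeasurableSet.univ hMF (Or.inl fun f => rfl) hband hh
  have hsym2 : ∀ t : ℝ, (fun ξ : EE (a + b) => mB a b c1 c2 (fun _ => 1) (fun _ => 1) lam t ξ) =
      mc a b c1 c2 lam t := by
    intro t; funext ξ; simp only [mB, mul_one]
  have hset2 : {x : EE (a + b) | ρ ≤ ‖p1 a b x‖ ∧ ‖p1 a b x‖ ≤ σ ∧
      p2 a b x ∈ (univ : Set (EE b))} = {x : EE (a + b) | ρ ≤ ‖p1 a b x‖ ∧ ‖p1 a b x‖ ≤ σ} := by
    ext x; simp
  simp only [hsym2, hset2] at hres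
  refine le_trans hres ?_
  have hA0 : 0 ≤ A := le_trans (norm_nonneg _) (hh.2.2 0)
  have hAq : 0 ≤ A ^ (q - 2) := Real.rpow_nonneg hA0 _
  have hdl : 0 ≤ dl lam Lam := by unfold dl; positivity
  have hφ : 0 ≤ φ := by
    rcases hRG with ⟨_, h⟩ | ⟨_, _, _, h, _⟩
    · rw [h]; exact zero_le_one
    · exact hdl.trans h
  have hFR : 0 ≤ FR a q lam Lam φ := by
    unfold FR; exact Real.rpow_nonneg (div_nonneg hφ hdl) _
  have hTγ : 0 ≤ min 1 S ^ γ := Real.rpow_nonneg hT0 _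
  have hN : 0 ≤ (lam ^ N)⁻¹ := by positivity
  have e0 : ENNReal.ofReal ((lam ^ (2 * ε) * FR a q lam Lam φ * min 1 S ^ γ + (lam ^ N)⁻¹) *
      A ^ (q - 2)) = ENNReal.ofReal (lam ^ (2 * ε) * FR a q lam Lam φ * min 1 S ^ γ +
      (lam ^ N)⁻¹) * ENNReal.ofReal (A ^ (q - 2)) := ENNReal.ofReal_mul (by positivity)
  rw [e0, ← mul_assoc (((Co * (2 * Cb + 1) : ℝ≥0) : ℝ≥0∞))]
  refine mul_le_mul' (mul_le_mul' ?_ le_rfl) le_rfl
  rw [ENNReal.ofReal_add (by positivity) hN]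
  push_cast
  have e1 : ENNReal.ofReal (2 * (lam ^ (2 * ε) * min 1 S ^ γ)) =
      2 * ENNReal.ofReal (lam ^ (2 * ε) * min 1 S ^ γ) := by
    rw [ENNReal.ofReal_mul (by norm_num)]; simp
  have e2 : ENNReal.ofReal (lam ^ (2 * ε) * FR a q lam Lam φ * min 1 S ^ γ) =
      ENNReal.ofReal (FR a q lam Lam φ) * ENNReal.ofReal (lam ^ (2 * ε) * min 1 S ^ γ) := by
    rw [← ENNReal.ofReal_mul hFR]; congr 1; ring
  rw [e1, e2]
  generalize ENNReal.ofReal (FR a q lam Lam φ) = F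
  generalize ENNReal.ofReal (lam ^ (2 * ε) * min 1 S ^ γ) = G
  generalize ENNReal.ofReal ((lam ^ N)⁻¹) = R
  calc (Co : ℝ≥0∞) * (F * ((Cb : ℝ≥0∞) * (2 * G)) + R)
      = (Co : ℝ≥0∞) * ((2 * Cb) * (F * G) + 1 * R) := by ring
    _ ≤ (Co : ℝ≥0∞) * ((2 * Cb + 1) * (F * G) + (2 * Cb + 1) * R) := by
        gcongr
        · exact le_self_add
        · exact le_add_self
    _ = (Co : ℝ≥0∞) * (2 * Cb + 1) * (F * G + R) := by ring

end Pool.Agent.H42.TN
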